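import Pool.Agent.Helper24.LD.Defs

/-!
Part P3 of `MP_0430e4_lc` (SparseParityChecks): short bicyclic subgraphs.
-/

set_option autoImplicit false

namespace Pool.Agent.H25.LD

open Finset

section

variable {V E : Type} [Fintype V] [DecidableEq V] [Fintype E] [DecidableEq E]

/-- the edges inside `S` -/
def inn (ends : E → Finset V) (S : Finset V) : Finset E := univ.filter fun e => ends e ⊆ S

/-- the edges inside `S` that meet `A` -/
def meet (ends : E → Finset V) (S A : Finset V) : Finset E :=
  univ.filter fun e => ends e ⊆ S ∧ (ends e ∩ A).Nonempty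

/-- a good set of edges at level `r` -/
def Good (ends : E → Finset V) (r : ℕ) : Prop :=
  ∃ T : Finset E, T.Nonempty ∧ (T.biUnion ends).card < T.card ∧ T.card ≤ 4 * (r + 1) + 2

/-- the invariant: `B` is a ball of radius `r` with spanning tree `F` -/
def State (ends : E → Finset V) (S : Finset V) (ε : ℝ) (r : ℕ) : Prop :=
  ∃ (B : Finset V) (F : Finset E), B ⊆ S ∧ B.Nonempty ∧ F.card + 1 = B.card ∧
    (∀ e ∈ F, ends e ⊆ B) ∧
    (∀ U ⊆ B, ∃ P ⊆ F, ∃ Q ⊆ B, U ⊆ Q ∧ (∀ e ∈ P, ends e ⊆ Q) ∧ Q.card ≤ P.card + 1 ∧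
      P.card ≤ r * U.card) ∧
    (1 + ε) ^ r ≤ (B.card : ℝ)

theorem dense_sub (ends : E → Finset V) (ε : ℝ) (h2 : ∀ e, (ends e).card = 2)
    (hV : 0 < Fintype.card V) (hE : (1 + ε) * Fintype.card V ≤ Fintype.card E) :
    ∃ S : Finset V, S.Nonempty ∧ ∀ A ⊆ S, A.Nonempty →
      (1 + ε) * A.card ≤ ((meet ends S A).card : ℝ) := by
  classical
  let Fam : Finset (Finset V) := univ.filter fun S =>
    S.Nonempty ∧ (1 + ε) * (S.card : ℝ) ≤ ((inn ends S).card : ℝ)
  have hne : Fam.Nonempty := by
    refine ⟨univ, ?_⟩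
    simp only [Fam, mem_filter, mem_univ, true_and]
    refine ⟨?_, ?_⟩
    · rw [← card_pos]; simpa using hV
    · have : inn ends (univ : Finset V) = univ := by ext e; simp [inn]
      rw [this]; simpa using hE
  obtain ⟨S, hS, hmin⟩ := Finset.exists_min_image Fam (fun S => S.card) hne
  simp only [Fam, mem_filter, mem_univ, true_and] at hS hmin
  refine ⟨S, hS.1, fun A hAS hA => ?_⟩
  have hsplit : inn ends S = inn ends (S \ A) ∪ meet ends S A := by
    ext e
    simp only [inn, meet, mem_union, mem_filter, mem_univ, true_and]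
    constructor
    · intro h
      by_cases hm : (ends e ∩ A).Nonempty
      · exact Or.inr ⟨h, hm⟩
      · left
        intro x hx
        rw [mem_sdiff]
        refine ⟨h hx, fun hxA => hm ⟨x, mem_inter.2 ⟨hx, hxA⟩⟩⟩
    · rintro (h | h)
      · exact h.trans sdiff_subset
      · exact h.1
  have hle : ((inn ends S).card : ℝ) ≤ (inn ends (S \ A)).card + (meet ends S A).card := by
    rw [hsplit]
    exact_mod_cast card_union_le _ _
  rcases (S \ A).eq_empty_or_nonempty with h0 | h0
  · -- `A = S`
    have : A = S := Subset.antisymm hAS (by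
      intro x hx
      by_contra hxA
      have : x ∈ S \ A := mem_sdiff.2 ⟨hx, hxA⟩
      rw [h0] at this
      simp at this)
    subst this
    have he : inn ends (A \ A) = ∅ := by
      ext e
      simp only [inn, sdiff_self, mem_filter, mem_univ, true_and]
      constructor
      · intro h
        have := h2 e
        have h' : ends e = ∅ := subset_empty.1 h
        rw [h'] at this
        simp at this
      · intro h; simp at h
    rw [he] at hle
    simp only [card_empty, Nat.cast_zero, zero_add] at hle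
    exact hS.2.trans hle
  · have hlt : (S \ A).card < S.card := by
      apply card_lt_card
      rw [ssubset_iff_subset_ne]
      refine ⟨sdiff_subset, fun h => ?_⟩
      obtain ⟨x, hx⟩ := hA
      have : x ∈ S \ A := by rw [h]; exact hAS hx
      exact (mem_sdiff.1 this).2 hx
    have hnot : ¬ (1 + ε) * ((S \ A).card : ℝ) ≤ ((inn ends (S \ A)).card : ℝ) := by
      intro hh
      exact absurd (hmin (S \ A) ⟨h0, hh⟩) (by omega)
    push Not at hnot
    have hc : ((S \ A).card : ℝ) = S.card - A.card := by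
      rw [card_sdiff_of_subset hAS, Nat.cast_sub (card_le_card hAS)]
    rw [hc] at hnot
    nlinarith [hS.2]

theorem step (ends : E → Finset V) (ε : ℝ) (hε : 0 < ε) (h2 : ∀ e, (ends e).card = 2)
    (S : Finset V) (hS : ∀ A ⊆ S, A.Nonempty → (1 + ε) * A.card ≤ ((meet ends S A).card : ℝ))
    (r : ℕ) (h : State ends S ε r) : Good ends r ∨ State ends S ε (r + 1) := by
  classical
  obtain ⟨B, F, hBS, hB, hFc, hFB, htree, hgrow⟩ := h
  set M := meet ends S B with hM
  have hMm : ∀ e, e ∈ M ↔ ends e ⊆ S ∧ (ends e ∩ B).Nonempty := by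
    intro e; simp [hM, meet]
  set B' := B ∪ M.biUnion ends with hB'
  have hBB' : B ⊆ B' := subset_union_left
  have hME : ∀ e ∈ M, ends e ⊆ B' := by
    intro e he x hx
    exact mem_union.2 (Or.inr (mem_biUnion.2 ⟨e, he, hx⟩))
  have hB'S : B' ⊆ S := by
    intro x hx
    rcases mem_union.1 hx with hx | hx
    · exact hBS hx
    · obtain ⟨e, he, hxe⟩ := mem_biUnion.1 hx
      exact ((hMm e).1 he).1 hxe
  -- the connecting edges
  have hconn : ∀ u ∈ B' \ B, ∃ e : E, ∃ v : V, e ∈ M ∧ v ∈ B ∧ ends e = {u, v} := by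
    intro u hu
    obtain ⟨hu1, hu2⟩ := mem_sdiff.1 hu
    rcases mem_union.1 hu1 with hx | hx
    · exact absurd hx hu2
    · obtain ⟨e, he, hue⟩ := mem_biUnion.1 hx
      obtain ⟨v, hv⟩ := ((hMm e).1 he).2
      obtain ⟨hve, hvB⟩ := mem_inter.1 hv
      refine ⟨e, v, he, hvB, ?_⟩
      have huv : u ≠ v := fun h => hu2 (h ▸ hvB)
      symm
      apply Finset.eq_of_subset_of_card_le
      · intro x hx
        rcases mem_insert.1 hx with hx | hx
        · rw [hx]; exact hue
        · rw [mem_singleton.1 hx]; exact hve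
      · rw [h2 e, card_pair huv]
  obtain ⟨v0, hv0⟩ := hB
  have hE0 : Nonempty E := by
    have h1 := hS B hBS ⟨v0, hv0⟩
    have h3 : (0 : ℝ) < (meet ends S B).card := by
      refine lt_of_lt_of_le ?_ h1
      have : (0 : ℝ) < B.card := by exact_mod_cast card_pos.2 ⟨v0, hv0⟩
      positivity
    have h4 : 0 < (meet ends S B).card := by exact_mod_cast h3
    obtain ⟨e, _⟩ := card_pos.1 h4
    exact ⟨e⟩
  have hconn' : ∃ g : V → E, ∃ k : V → V, ∀ u ∈ B' \ B, g u ∈ M ∧ k u ∈ B ∧
      ends (g u) = {u, k u} := by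
    choose! g k hgk using hconn
    exact ⟨g, k, hgk⟩
  obtain ⟨g, k, hgk⟩ := hconn'
  have hginj : Set.InjOn g (B' \ B : Finset V) := by
    intro u hu u' hu' heq
    have hu : u ∈ B' \ B := hu
    have hu' : u' ∈ B' \ B := hu'
    obtain ⟨-, hk, he⟩ := hgk u hu
    obtain ⟨-, hk', he'⟩ := hgk u' hu'
    rw [heq, he'] at he
    have hm : u ∈ ({u', k u'} : Finset V) := by rw [he]; simp
    rcases mem_insert.1 hm with hm | hm
    · exact hm
    · rw [mem_singleton] at hm
      exact absurd (hm ▸ hk') (mem_sdiff.1 hu).2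
  have hgF : ∀ u ∈ B' \ B, g u ∉ F := by
    intro u hu hF
    obtain ⟨-, -, he⟩ := hgk u hu
    have := hFB _ hF
    rw [he] at this
    exact (mem_sdiff.1 hu).2 (this (by simp))
  set F' := F ∪ (B' \ B).image g with hF'
  have hcardimg : ∀ W ⊆ B' \ B, (W.image g).card = W.card := by
    intro W hW
    apply card_image_of_injOn
    exact hginj.mono (by exact_mod_cast hW)
  have hdisj : ∀ P ⊆ F, ∀ W ⊆ B' \ B, Disjoint P (W.image g) := by
    intro P hP W hW
    rw [disjoint_left]
    intro e he he'
    obtain ⟨u, hu, rfl⟩ := mem_image.1 he'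
    exact hgF u (hW hu) (hP he)
  have hF'c : F'.card + 1 = B'.card := by
    rw [hF', card_union_of_disjoint (hdisj F Subset.rfl _ Subset.rfl), hcardimg _ Subset.rfl,
      card_sdiff_of_subset hBB']
    have := card_le_card hBB'
    omega
  have hF'B : ∀ e ∈ F', ends e ⊆ B' := by
    intro e he
    rcases mem_union.1 he with he | he
    · exact (hFB e he).trans hBB'
    · obtain ⟨u, hu, rfl⟩ := mem_image.1 he
      exact hME _ (hgk u hu).1
  have htree' : ∀ U ⊆ B', ∃ P ⊆ F', ∃ Q ⊆ B', U ⊆ Q ∧ (∀ e ∈ P, ends e ⊆ Q) ∧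
      Q.card ≤ P.card + 1 ∧ P.card ≤ (r + 1) * U.card := by
    intro U hU
    have hUB : U \ B ⊆ B' \ B := sdiff_subset_sdiff hU Subset.rfl
    have hU' : (U ∩ B) ∪ (U \ B).image k ⊆ B := by
      intro x hx
      rcases mem_union.1 hx with hx | hx
      · exact (mem_inter.1 hx).2
      · obtain ⟨u, hu, rfl⟩ := mem_image.1 hx
        exact (hgk u (hUB hu)).2.1
    obtain ⟨P, hPF, Q, hQB, hUQ, hPQ, hQP, hPr⟩ := htree _ hU'
    refine ⟨P ∪ (U \ B).image g, ?_, Q ∪ (U \ B), ?_, ?_, ?_, ?_, ?_⟩
    · exact union_subset_union hPF (image_subset_image hUB)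
    · exact union_subset (hQB.trans hBB') (sdiff_subset.trans hU)
    · intro x hx
      by_cases hxB : x ∈ B
      · exact mem_union.2 (Or.inl (hUQ (mem_union.2 (Or.inl (mem_inter.2 ⟨hx, hxB⟩)))))
      · exact mem_union.2 (Or.inr (mem_sdiff.2 ⟨hx, hxB⟩))
    · intro e he
      rcases mem_union.1 he with he | he
      · exact (hPQ e he).trans subset_union_left
      · obtain ⟨u, hu, rfl⟩ := mem_image.1 he
        rw [(hgk u (hUB hu)).2.2]
        intro x hx
        rcases mem_insert.1 hx with hx | hx
        · rw [hx]; exact mem_union.2 (Or.inr hu)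
        · rw [mem_singleton.1 hx]
          exact mem_union.2 (Or.inl (hUQ (mem_union.2 (Or.inr (mem_image_of_mem k hu)))))
    · rw [card_union_of_disjoint (hdisj P hPF _ hUB), hcardimg _ hUB]
      have := card_union_le Q (U \ B)
      omega
    · rw [card_union_of_disjoint (hdisj P hPF _ hUB), hcardimg _ hUB]
      have h1 : ((U ∩ B) ∪ (U \ B).image k).card ≤ U.card := by
        calc ((U ∩ B) ∪ (U \ B).image k).card ≤ (U ∩ B).card + ((U \ B).image k).card :=
              card_union_le _ _
          _ ≤ (U ∩ B).card + (U \ B).card := by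
              have := card_image_le (s := U \ B) (f := k)
              omega
          _ = U.card := by rw [add_comm]; exact card_sdiff_add_card_inter U B
      have h3 : (U \ B).card ≤ U.card := card_le_card sdiff_subset
      calc P.card + (U \ B).card ≤ r * U.card + U.card := by
            have := Nat.mul_le_mul_left r h1
            omega
        _ = (r + 1) * U.card := by ring
  by_cases hcase : B'.card + 1 ≤ M.card
  · left
    have hcard : 1 < (M \ F').card := by
      have := le_card_sdiff F' M
      omega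
    obtain ⟨e1, he1, e2, he2, hne⟩ := one_lt_card.1 hcard
    obtain ⟨he1M, he1F⟩ := mem_sdiff.1 he1
    obtain ⟨he2M, he2F⟩ := mem_sdiff.1 he2
    obtain ⟨P, hPF, Q, hQB, hUQ, hPQ, hQP, hPr⟩ := htree' (ends e1 ∪ ends e2)
      (union_subset (hME _ he1M) (hME _ he2M))
    have hU4 : (ends e1 ∪ ends e2).card ≤ 4 := by
      have := card_union_le (ends e1) (ends e2)
      rw [h2, h2] at this
      exact this
    have hTc : (insert e1 (insert e2 P)).card = P.card + 2 := by
      rw [card_insert_of_notMem, card_insert_of_notMem (fun h => he2F (hPF h))]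
      intro h
      rcases mem_insert.1 h with h | h
      · exact hne h
      · exact he1F (hPF h)
    refine ⟨insert e1 (insert e2 P), insert_nonempty _ _, ?_, ?_⟩
    · have hsub : (insert e1 (insert e2 P)).biUnion ends ⊆ Q := by
        intro x hx
        obtain ⟨e, he, hxe⟩ := mem_biUnion.1 hx
        rcases mem_insert.1 he with he | he
        · exact hUQ (mem_union.2 (Or.inl (he ▸ hxe)))
        · rcases mem_insert.1 he with he | he
          · exact hUQ (mem_union.2 (Or.inr (he ▸ hxe)))
          · exact hPQ e he hxe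
      have := card_le_card hsub
      omega
    · rw [hTc]
      have := Nat.mul_le_mul_left (r + 1) hU4
      omega
  · right
    refine ⟨B', F', hB'S, ⟨v0, hBB' hv0⟩, hF'c, hF'B, htree', ?_⟩
    have h1 := hS B hBS ⟨v0, hv0⟩
    have h3 : (M.card : ℝ) ≤ B'.card := by
      exact_mod_cast (by omega : M.card ≤ B'.card)
    calc (1 + ε) ^ (r + 1) = (1 + ε) * (1 + ε) ^ r := by ring
      _ ≤ (1 + ε) * B.card := by
          apply mul_le_mul_of_nonneg_left hgrow
          linarith
      _ ≤ _ := h1.trans h3

end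

open Pool.Agent.Helper24.LD in
/-- P3 -/
theorem p3 : S_P3 := by
  intro V E _ _ _ _ ends ε hε h2 hV hE
  classical
  obtain ⟨S, ⟨v0, hv0⟩, hS⟩ := dense_sub ends ε h2 hV hE
  by_contra hno
  have hall : ∀ r : ℕ, State ends S ε r := by
    intro r
    induction r with
    | zero =>
      refine ⟨{v0}, ∅, by simpa using hv0, by simp, by simp, by simp, ?_, by simp⟩
      intro U hU
      refine ⟨∅, by simp, {v0}, Subset.rfl, hU, by simp, by simp, by simp⟩
    | succ r ih =>
      rcases step ends ε hε h2 S hS r ih with hgood | hst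
      · exfalso
        apply hno
        obtain ⟨T, hT, hTc, hTr⟩ := hgood
        refine ⟨T, hT, hTc, ?_⟩
        obtain ⟨B, -, -, -, -, -, -, hgrow⟩ := ih
        have hBV : (B.card : ℝ) ≤ Fintype.card V := by exact_mod_cast card_le_univ B
        have hlog : (r : ℝ) * Real.log (1 + ε) ≤ Real.log (Fintype.card V) := by
          rw [← Real.log_pow]
          apply Real.log_le_log (by positivity)
          exact hgrow.trans hBV
        have hl : 0 < Real.log (1 + ε) := Real.log_pos (by linarith)
        have hr : (r : ℝ) ≤ Real.log (Fintype.card V) / Real.log (1 + ε) := by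
          rw [le_div_iff₀ hl]; exact hlog
        have : (T.card : ℝ) ≤ 4 * ((r : ℝ) + 1) + 2 := by exact_mod_cast hTr
        linarith
      · exact hst
  obtain ⟨r, hr⟩ := pow_unbounded_of_one_lt (Fintype.card V : ℝ) (by linarith : (1 : ℝ) < 1 + ε)
  obtain ⟨B, -, -, -, -, -, -, hgrow⟩ := hall r
  have hBV : (B.card : ℝ) ≤ Fintype.card V := by exact_mod_cast card_le_univ B
  linarith

end Pool.Agent.H25.LD
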